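import Mathlib

/-! # Domination and irredundance numbers, edge-critical graphs

Definitions, and a translation of the notions to bit masks for graphs on `Fin m`. -/

set_option autoImplicit false

open Finset

namespace Pool.Agent.H132EC

section

variable {V : Type}

/-- `w` lies in the closed neighbourhood `N[v]`. -/
def Near (G : SimpleGraph V) (v w : V) : Prop := w = v ∨ G.Adj v w

/-- `S` is dominating: every vertex lies in `N[s]` for some `s` in `S`. -/
def Dominating (G : SimpleGraph V) (S : Finset V) : Prop := ∀ w, ∃ s ∈ S, Near G s w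

/-- `S` is irredundant: for every `s` in `S` some vertex lies in `N[s]` and in no `N[t]` with `t` in
`S` different from `s`. -/
def Irredundant (G : SimpleGraph V) (S : Finset V) : Prop :=
  ∀ s ∈ S, ∃ w, Near G s w ∧ ∀ t ∈ S, t ≠ s → ¬ Near G t w

/-- `S` is irredundant and no proper superset of `S` is. -/
def MaxIrredundant (G : SimpleGraph V) (S : Finset V) : Prop :=
  Irredundant G S ∧ ∀ T : Finset V, S ⊂ T → ¬ Irredundant G T

/-- The domination number: the least size of a dominating set. -/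
noncomputable def gamma (G : SimpleGraph V) : ℕ :=
  sInf {k | ∃ S : Finset V, Dominating G S ∧ S.card = k}

/-- The lower irredundance number: the least size of a maximal irredundant set. -/
noncomputable def ir (G : SimpleGraph V) : ℕ :=
  sInf {k | ∃ S : Finset V, MaxIrredundant G S ∧ S.card = k}

/-- `G` is edge-critical for the parameter `f`: adding any missing edge `uv` strictly lowers `f`. -/
def EdgeCritical (f : SimpleGraph V → ℕ) (G : SimpleGraph V) : Prop :=
  ∀ u v : V, u ≠ v → ¬ G.Adj u v → f (G ⊔ SimpleGraph.edge u v) < f G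

end

/-! ### Bit masks -/

variable {m : ℕ}

/-- the masks `nb a` are those of the closed neighbourhoods of `G` -/
structure Rep (nb : Fin m → ℕ) (G : SimpleGraph (Fin m)) : Prop where
  near : ∀ a b : Fin m, (nb a).testBit b = true ↔ Near G a b
  lt : ∀ a : Fin m, nb a < 2 ^ m

/-- the union of the closed neighbourhoods of the members of a list -/
def cov (nb : Fin m → ℕ) (l : List (Fin m)) : ℕ := l.foldr (fun i x => nb i ||| x) 0

theorem testBit_cov (nb : Fin m → ℕ) (l : List (Fin m)) (j : ℕ) :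
    (cov nb l).testBit j = true ↔ ∃ i ∈ l, (nb i).testBit j = true := by
  induction l with
  | nil => simp [cov]
  | cons a l ih =>
    have h : cov nb (a :: l) = nb a ||| cov nb l := rfl
    rw [h, Nat.testBit_or, Bool.or_eq_true, ih]
    simp

theorem or_eq_iff (a b : ℕ) : a ||| b = b ↔ ∀ j, a.testBit j = true → b.testBit j = true := by
  constructor
  · intro h j hj
    rw [← h, Nat.testBit_or, hj, Bool.true_or]
  · intro h
    apply Nat.eq_of_testBit_eq
    intro j
    rw [Nat.testBit_or]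
    cases h1 : a.testBit j
    · rw [Bool.false_or]
    · rw [h j h1, Bool.true_or]

/-- irredundance by masks -/
def irrB (nb : Fin m → ℕ) (l : List (Fin m)) : Bool :=
  l.all fun i => !((nb i ||| cov nb (l.filter fun t => !(t == i))) == cov nb (l.filter fun t => !(t == i)))

theorem Rep.lt_of_testBit {nb : Fin m → ℕ} {G : SimpleGraph (Fin m)} (h : Rep nb G) {a : Fin m}
    {j : ℕ} (hj : (nb a).testBit j = true) : j < m := by
  by_contra hc
  have h1 := Nat.testBit_lt_two_pow (lt_of_lt_of_le (h.lt a) (Nat.pow_le_pow_right (by norm_num)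
    (Nat.le_of_not_lt hc)))
  rw [h1] at hj
  exact Bool.noConfusion hj

theorem irrB_iff {nb : Fin m → ℕ} {G : SimpleGraph (Fin m)} (h : Rep nb G) (l : List (Fin m)) :
    irrB nb l = true ↔ Irredundant G l.toFinset := by
  unfold irrB Irredundant
  rw [List.all_eq_true]
  refine forall_congr' fun s => ?_
  rw [List.mem_toFinset]
  refine imp_congr_right fun _ => ?_
  rw [Bool.not_eq_true', beq_eq_false_iff_ne, Ne, or_eq_iff]
  push Not
  constructor
  · rintro ⟨j, h1, h2⟩
    have hj := h.lt_of_testBit h1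
    refine ⟨⟨j, hj⟩, (h.near s ⟨j, hj⟩).1 h1, fun t ht hts h3 => ?_⟩
    apply h2
    exact (testBit_cov _ _ _).2
      ⟨t, by simpa [List.mem_filter] using ⟨List.mem_toFinset.1 ht, hts⟩, (h.near t ⟨j, hj⟩).2 h3⟩
  · rintro ⟨w, h1, h2⟩
    refine ⟨w, (h.near s w).2 h1, fun h4 => ?_⟩
    obtain ⟨t, ht, h3⟩ := (testBit_cov _ _ _).1 h4
    have ht2 : t ∈ l ∧ t ≠ s := by simpa [List.mem_filter] using ht
    exact h2 t (List.mem_toFinset.2 ht2.1) ht2.2 ((h.near t w).1 h3)

theorem Irredundant.mono {V : Type} {G : SimpleGraph V} {S T : Finset V} (h : Irredundant G T)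
    (hST : S ⊆ T) : Irredundant G S := by
  intro s hs
  obtain ⟨w, h1, h2⟩ := h s (hST hs)
  exact ⟨w, h1, fun t ht hts => h2 t (hST ht) hts⟩

theorem maxIrredundant_iff {V : Type} [DecidableEq V] {G : SimpleGraph V} {S : Finset V} :
    MaxIrredundant G S ↔ Irredundant G S ∧ ∀ v, v ∉ S → ¬ Irredundant G (insert v S) := by
  constructor
  · rintro ⟨h1, h2⟩
    exact ⟨h1, fun v hv => h2 _ (ssubset_insert hv)⟩
  · rintro ⟨h1, h2⟩
    refine ⟨h1, fun T hT hT2 => ?_⟩
    obtain ⟨v, hv, hv2⟩ := exists_of_ssubset hT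
    exact h2 v hv2 (hT2.mono (insert_subset hv hT.1))

/-- maximal irredundance by masks -/
def miB (nb : Fin m → ℕ) (l : List (Fin m)) : Bool :=
  irrB nb l && (List.finRange m).all fun v => l.contains v || !(irrB nb (v :: l))

theorem miB_iff {nb : Fin m → ℕ} {G : SimpleGraph (Fin m)} (h : Rep nb G) (l : List (Fin m)) :
    miB nb l = true ↔ MaxIrredundant G l.toFinset := by
  rw [maxIrredundant_iff, miB, Bool.and_eq_true, irrB_iff h, List.all_eq_true]
  refine and_congr_right fun _ => forall_congr' fun v => ?_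
  have h1 : v ∈ List.finRange m := List.mem_finRange v
  simp only [h1, forall_true_left, Bool.or_eq_true, List.contains_iff_mem, Bool.not_eq_true',
    List.mem_toFinset]
  rw [← Bool.not_eq_true, irrB_iff h, List.toFinset_cons]
  tauto

/-- domination by masks -/
def domB (nb : Fin m → ℕ) (l : List (Fin m)) : Bool := cov nb l == 2 ^ m - 1

theorem domB_iff {nb : Fin m → ℕ} {G : SimpleGraph (Fin m)} (h : Rep nb G) (l : List (Fin m)) :
    domB nb l = true ↔ Dominating G l.toFinset := by
  unfold domB Dominating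
  rw [beq_iff_eq]
  constructor
  · intro h1 w
    have h2 : (cov nb l).testBit w = true := by
      rw [h1, Nat.testBit_two_pow_sub_one]
      exact decide_eq_true w.2
    obtain ⟨s, hs, h3⟩ := (testBit_cov nb l w).1 h2
    exact ⟨s, List.mem_toFinset.2 hs, (h.near s w).1 h3⟩
  · intro h1
    apply Nat.eq_of_testBit_eq
    intro j
    rw [Nat.testBit_two_pow_sub_one]
    by_cases hj : j < m
    · rw [decide_eq_true hj, testBit_cov]
      obtain ⟨s, hs, h2⟩ := h1 ⟨j, hj⟩
      exact ⟨s, List.mem_toFinset.1 hs, (h.near s ⟨j, hj⟩).2 h2⟩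
    · rw [decide_eq_false hj, ← Bool.not_eq_true, testBit_cov]
      rintro ⟨s, _, h2⟩
      exact hj (h.lt_of_testBit h2)

/-! ### Bounds -/

theorem gamma_le {nb : Fin m → ℕ} {G : SimpleGraph (Fin m)} (h : Rep nb G) (l : List (Fin m))
    (hl : domB nb l = true) : gamma G ≤ l.length := by
  refine le_trans (Nat.sInf_le ⟨l.toFinset, (domB_iff h l).1 hl, rfl⟩) ?_
  exact List.toFinset_card_le l

theorem ir_le {nb : Fin m → ℕ} {G : SimpleGraph (Fin m)} (h : Rep nb G) (l : List (Fin m))
    (hl : miB nb l = true) : ir G ≤ l.length := by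
  refine le_trans (Nat.sInf_le ⟨l.toFinset, (miB_iff h l).1 hl, rfl⟩) ?_
  exact List.toFinset_card_le l

theorem le_gamma {nb : Fin m → ℕ} {G : SimpleGraph (Fin m)} (h : Rep nb G) (hm : 3 ≤ m)
    (hl : ∀ a b c : Fin m, domB nb [a, b, c] = false) : 4 ≤ gamma G := by
  refine le_csInf ⟨_, univ, fun w => ⟨w, mem_univ _, Or.inl rfl⟩, rfl⟩ ?_
  rintro _ ⟨S, hS, rfl⟩
  by_contra hc
  obtain ⟨T, hT, hT2⟩ := exists_superset_card_eq (n := 3) (show S.card ≤ 3 by omega)
    (by simpa using hm)
  obtain ⟨a, b, c, -, -, -, rfl⟩ := card_eq_three.1 hT2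
  have h1 : Dominating G ([a, b, c].toFinset) := by
    intro w
    obtain ⟨s, hs, hw⟩ := hS w
    exact ⟨s, by simpa using hT hs, hw⟩
  rw [← domB_iff h, hl] at h1
  exact Bool.noConfusion h1

theorem le_ir_three {nb : Fin m → ℕ} {G : SimpleGraph (Fin m)} (h : Rep nb G)
    (hne : ∃ l, miB nb l = true) (h0 : miB nb [] = false)
    (h2 : ∀ a b : Fin m, miB nb [a, b] = false) : 3 ≤ ir G := by
  obtain ⟨l, hl⟩ := hne
  refine le_csInf ⟨_, l.toFinset, (miB_iff h l).1 hl, rfl⟩ ?_
  rintro _ ⟨S, hS, rfl⟩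
  by_contra hc
  have key : ∀ l' : List (Fin m), l'.toFinset = S → miB nb l' = false → False := by
    intro l' e1 e2
    rw [← e1, ← miB_iff h, e2] at hS
    exact Bool.noConfusion hS
  have h3 : S.card = 0 ∨ S.card = 1 ∨ S.card = 2 := by omega
  rcases h3 with h3 | h3 | h3
  · rw [card_eq_zero] at h3
    exact key [] (by rw [h3]; rfl) h0
  · obtain ⟨a, rfl⟩ := card_eq_one.1 h3
    exact key [a, a] (by simp) (h2 a a)
  · obtain ⟨a, b, -, rfl⟩ := card_eq_two.1 h3
    exact key [a, b] (by simp) (h2 a b)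

theorem le_ir_four {nb : Fin m → ℕ} {G : SimpleGraph (Fin m)} (h : Rep nb G)
    (hne : ∃ l, miB nb l = true) (h0 : miB nb [] = false)
    (h3 : ∀ a b c : Fin m, miB nb [a, b, c] = false) : 4 ≤ ir G := by
  obtain ⟨l, hl⟩ := hne
  refine le_csInf ⟨_, l.toFinset, (miB_iff h l).1 hl, rfl⟩ ?_
  rintro _ ⟨S, hS, rfl⟩
  by_contra hc
  have key : ∀ l' : List (Fin m), l'.toFinset = S → miB nb l' = false → False := by
    intro l' e1 e2
    rw [← e1, ← miB_iff h, e2] at hS
    exact Bool.noConfusion hS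
  have h4 : S.card = 0 ∨ S.card = 1 ∨ S.card = 2 ∨ S.card = 3 := by omega
  rcases h4 with h4 | h4 | h4 | h4
  · rw [card_eq_zero] at h4
    exact key [] (by rw [h4]; rfl) h0
  · obtain ⟨a, rfl⟩ := card_eq_one.1 h4
    exact key [a, a, a] (by simp) (h3 a a a)
  · obtain ⟨a, b, -, rfl⟩ := card_eq_two.1 h4
    exact key [a, b, b] (by simp) (h3 a b b)
  · obtain ⟨a, b, c, -, -, -, rfl⟩ := card_eq_three.1 h4
    exact key [a, b, c] (by simp) (h3 a b c)

/-! ### Adding an edge -/

/-- the masks after adding the edge `uv` -/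
def addE (nb : Fin m → ℕ) (u v a : Fin m) : ℕ :=
  if a = u then nb a ||| 2 ^ (v : ℕ) else if a = v then nb a ||| 2 ^ (u : ℕ) else nb a

theorem addE_rep {nb : Fin m → ℕ} {G : SimpleGraph (Fin m)} (h : Rep nb G) (u v : Fin m)
    (huv : u ≠ v) : Rep (addE nb u v) (G ⊔ SimpleGraph.edge u v) := by
  have e : ∀ j k : Fin m, ((2 ^ (j : ℕ) : ℕ)).testBit k = true ↔ j = k := by
    intro j k
    rw [Nat.testBit_two_pow, decide_eq_true_iff, Fin.ext_iff]
  constructor
  · intro a b
    unfold Near
    rw [SimpleGraph.sup_adj, SimpleGraph.edge_adj]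
    have hab := h.near a b
    unfold Near at hab
    unfold addE
    split_ifs with h1 h2
    · subst h1
      rw [Nat.testBit_or, Bool.or_eq_true, hab, e]
      constructor
      · rintro (h3 | rfl)
        · tauto
        · exact Or.inr (Or.inr ⟨Or.inl ⟨rfl, rfl⟩, huv⟩)
      · rintro (h3 | h3 | ⟨⟨-, h3⟩ | ⟨h3, -⟩, h5⟩)
        · exact Or.inl (Or.inl h3)
        · exact Or.inl (Or.inr h3)
        · exact Or.inr h3.symm
        · exact absurd h3 huv
    · subst h2
      rw [Nat.testBit_or, Bool.or_eq_true, hab, e]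
      constructor
      · rintro (h3 | rfl)
        · tauto
        · exact Or.inr (Or.inr ⟨Or.inr ⟨rfl, rfl⟩, h1⟩)
      · rintro (h3 | h3 | ⟨⟨h3, -⟩ | ⟨-, h3⟩, h5⟩)
        · exact Or.inl (Or.inl h3)
        · exact Or.inl (Or.inr h3)
        · exact absurd h3 h1
        · exact Or.inr h3.symm
    · rw [hab]
      constructor
      · tauto
      · rintro (h3 | h3 | ⟨⟨h3, -⟩ | ⟨h3, -⟩, h5⟩)
        · exact Or.inl h3
        · exact Or.inr h3
        · exact absurd h3 h1
        · exact absurd h3 h2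
  · intro a
    have hp : ∀ j : Fin m, (2 : ℕ) ^ (j : ℕ) < 2 ^ m := fun j => Nat.pow_lt_pow_right (by norm_num) j.2
    unfold addE
    split_ifs
    · exact Nat.or_lt_two_pow (h.lt a) (hp v)
    · exact Nat.or_lt_two_pow (h.lt a) (hp u)
    · exact h.lt a

end Pool.Agent.H132EC
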